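import Mathlib
import Pool.Graph.R_pool_sql_team_seeded_63374d34.N792.Defs

set_option autoImplicit false
set_option maxHeartbeats 4000000

/-! # `x ^ 2 + x + A`: the comparison of sums and integrals, and the constants (helper64) -/

namespace Pool.Agent.Helper64.CF

open Finset Filter Topology Pool.Agent.N792

/-- the number of `0 ≤ x ≤ n` with `x² + x + A` prime -/
def P (A n : ℕ) : ℕ := ((range (n + 1)).filter (fun x : ℕ => (x ^ 2 + x + A).Prime)).card

/-- `L_A(n)` -/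
noncomputable def L (A n : ℕ) : ℝ := 2 * ∫ x in (0 : ℝ)..n, 1 / Real.log (x ^ 2 + x + A)

/-- the partial products of `C(1 - 4 A)` over the odd primes `p ≤ z` -/
noncomputable def C (A z : ℕ) : ℝ :=
  ∏ p ∈ (Icc 3 z).filter Nat.Prime, (1 - (jacobiSym (1 - 4 * (A : ℤ)) p : ℝ) / ((p : ℝ) - 1))

lemma P_sub (A u v : ℕ) (huv : u ≤ v) :
    (P A v : ℝ) - P A u = (((Ioc u v).filter (fun x : ℕ => (x ^ 2 + x + A).Prime)).card : ℝ) := by
  have h1 : (range (v + 1)).filter (fun x : ℕ => (x ^ 2 + x + A).Prime) =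
      (range (u + 1)).filter (fun x : ℕ => (x ^ 2 + x + A).Prime) ∪
        (Ioc u v).filter (fun x : ℕ => (x ^ 2 + x + A).Prime) := by
    rw [← filter_union]
    congr 1
    ext x
    simp only [mem_range, mem_union, mem_Ioc]
    omega
  have h2 : Disjoint ((range (u + 1)).filter (fun x : ℕ => (x ^ 2 + x + A).Prime))
      ((Ioc u v).filter (fun x : ℕ => (x ^ 2 + x + A).Prime)) := by
    rw [Finset.disjoint_left]
    intro x hx hx'
    rw [mem_filter, mem_range] at hx
    rw [mem_filter, mem_Ioc] at hx'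
    omega
  have h3 : P A v = P A u + ((Ioc u v).filter (fun x : ℕ => (x ^ 2 + x + A).Prime)).card := by
    unfold P
    rw [h1, card_union_of_disjoint h2]
  rw [h3]
  push_cast
  ring

lemma fv_one (c m : ℕ) : (fv 1 1 (c : ℤ) m).toNat = m ^ 2 + m + c := by
  unfold fv
  have : (1 : ℤ) * (m : ℤ) ^ 2 + 1 * m + c = ((m ^ 2 + m + c : ℕ) : ℤ) := by push_cast; ring
  rw [this, Int.toNat_natCast]

lemma eps_one : eps 1 1 = 2 := by unfold eps; norm_num

lemma gcdProd_one : gcdProd 1 1 = 1 := by unfold gcdProd; simp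

lemma partialC_one' (c z : ℕ) : partialC 1 1 (c : ℤ) z = C c z := by
  unfold partialC C
  apply Finset.prod_congr
  · apply filter_congr
    intro p hp
    constructor
    · exact fun h => h.1
    · intro h
      refine ⟨h, fun hd => ?_⟩
      have h1 : (p : ℤ) ∣ ((1 : ℕ) : ℤ) := by simpa using hd
      have h2 : p ∣ 1 := by exact_mod_cast h1
      exact h.one_lt.ne' (Nat.dvd_one.1 h2)
  · intro p _
    norm_num

lemma adm (A : ℕ) (hA : Odd A) : Admissible 1 1 (A : ℤ) := by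
  refine ⟨one_pos, fun d h1 _ _ => isUnit_of_dvd_one h1, ?_, ?_⟩
  · rintro ⟨_, h⟩
    have : 2 ∣ A := by exact_mod_cast h
    exact (Nat.not_even_iff_odd.2 hA) (even_iff_two_dvd.2 this)
  · rintro ⟨r, hr⟩
    have h0 : 0 < A := hA.pos
    have h1 : (1 : ℤ) ≤ A := by exact_mod_cast h0
    nlinarith [mul_self_nonneg r]

/-- the integrand -/
lemma anti (A : ℕ) (hA : 3 ≤ A) : AntitoneOn (fun x : ℝ => 1 / Real.log (x ^ 2 + x + A)) (Set.Ici 0) := by
  intro x hx y hy hxy
  rw [Set.mem_Ici] at hx hy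
  have hA' : (3 : ℝ) ≤ A := by exact_mod_cast hA
  have h1 : (3 : ℝ) ≤ x ^ 2 + x + A := by nlinarith
  have h2 : x ^ 2 + x + A ≤ y ^ 2 + y + A := by nlinarith
  exact one_div_le_one_div_of_le (Real.log_pos (by linarith)) (Real.log_le_log (by linarith) h2)

lemma g_bd (A : ℕ) (hA : 3 ≤ A) (x : ℝ) (hx : 0 ≤ x) :
    0 ≤ 1 / Real.log (x ^ 2 + x + A) ∧ 1 / Real.log (x ^ 2 + x + A) ≤ 1 := by
  have hA' : (3 : ℝ) ≤ A := by exact_mod_cast hA
  have h1 : (3 : ℝ) ≤ x ^ 2 + x + A := by nlinarith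
  have h2 : (1 : ℝ) ≤ Real.log (x ^ 2 + x + A) := by
    have h3 : Real.exp 1 ≤ x ^ 2 + x + A := by
      have := Real.exp_one_lt_d9
      linarith
    calc (1 : ℝ) = Real.log (Real.exp 1) := (Real.log_exp 1).symm
      _ ≤ _ := Real.log_le_log (Real.exp_pos _) h3
  constructor
  · positivity
  · rw [div_le_one (by linarith)]
    exact h2

lemma integrable (A : ℕ) (hA : 3 ≤ A) (a b : ℝ) (ha : 0 ≤ a) (hab : a ≤ b) :
    IntervalIntegrable (fun x : ℝ => 1 / Real.log (x ^ 2 + x + A)) MeasureTheory.volume a b := by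
  apply AntitoneOn.intervalIntegrable
  rw [Set.uIcc_of_le hab]
  exact (anti A hA).mono (fun x hx => Set.mem_Ici.2 (ha.trans hx.1))

/-- comparison of the sum and the integral -/
lemma sum_int (A : ℕ) (hA : 3 ≤ A) (u v : ℕ) (huv : u ≤ v) :
    |2 * ∑ m ∈ Ioc u v, 1 / Real.log ((m : ℝ) ^ 2 + m + A) - (L A v - L A u)| ≤ 2 := by
  obtain ⟨g, hg⟩ : ∃ g : ℝ → ℝ, g = fun x : ℝ => 1 / Real.log (x ^ 2 + x + A) := ⟨_, rfl⟩
  have hu0 : (0 : ℝ) ≤ u := Nat.cast_nonneg _
  have huv' : (u : ℝ) ≤ v := by exact_mod_cast huv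
  have hL : L A v - L A u = 2 * ∫ x in (u : ℝ)..v, g x := by
    unfold L
    rw [← hg, ← intervalIntegral.integral_add_adjacent_intervals (a := (0 : ℝ)) (b := u) (c := v)
      (by rw [hg]; exact integrable A hA 0 u le_rfl hu0) (by rw [hg]; exact integrable A hA u v hu0 huv')]
    ring
  have hanti : AntitoneOn g (Set.Icc (u : ℝ) v) := by
    rw [hg]
    exact (anti A hA).mono (fun x hx => Set.mem_Ici.2 (hu0.trans hx.1))
  have h1 := hanti.integral_le_sum_Ico huv
  have h2 := hanti.sum_le_integral_Ico huv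
  have h3 : ∑ i ∈ Ico u v, g ((i + 1 : ℕ) : ℝ) = ∑ m ∈ Ioc u v, g m := by
    have e : Ioc u v = (Ico u v).image (fun i => i + 1) := by
      ext x
      simp only [mem_Ioc, mem_image, mem_Ico]
      constructor
      · rintro ⟨h1, h2⟩
        exact ⟨x - 1, by omega, by omega⟩
      · rintro ⟨y, h1, rfl⟩
        omega
    rw [e, sum_image (by intro a _ b _ h; simpa using h)]
  rw [h3] at h2
  have h4 : ∑ i ∈ Ico u v, g i ≤ ∑ m ∈ Ioc u v, g m + 1 := by
    have e1 : ∑ i ∈ Ico u v, g i + g v = ∑ i ∈ Icc u v, g i := by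
      have e0 : Icc u v = Ico u (v + 1) := by
        ext x
        simp only [mem_Icc, mem_Ico]
        omega
      rw [e0, sum_Ico_succ_top huv]
    have e2 : ∑ i ∈ Icc u v, g i = g u + ∑ m ∈ Ioc u v, g m := by
      rw [← Finset.sum_Ioc_add_eq_sum_Icc huv]
      ring
    have b1 := (g_bd A hA (u : ℝ) hu0).2
    have b2 := (g_bd A hA (v : ℝ) (hu0.trans huv')).1
    have c1 : g u ≤ 1 := by rw [hg]; exact b1
    have c2 : 0 ≤ g v := by rw [hg]; exact b2
    linarith
  have e5 : ∑ m ∈ Ioc u v, 1 / Real.log ((m : ℝ) ^ 2 + m + A) = ∑ m ∈ Ioc u v, g m := by rw [hg]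
  rw [hL, e5, abs_le]
  constructor <;> linarith

lemma L_lower (A : ℕ) (hA : 3 ≤ A) (N : ℕ) (hAN : A ≤ N) (hN : 3 ≤ N) :
    2 * N / (3 * Real.log N) ≤ L A N := by
  have hN3 : (3 : ℝ) ≤ N := by exact_mod_cast hN
  have hANR : (A : ℝ) ≤ N := by exact_mod_cast hAN
  have hN0 : (0 : ℝ) ≤ N := by linarith
  have hA' : (3 : ℝ) ≤ A := by exact_mod_cast hA
  have hlog : 0 < Real.log N := Real.log_pos (by linarith)
  have h := intervalIntegral.integral_mono_on hN0 (intervalIntegrable_const (c := 1 / (3 * Real.log N)))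
    (integrable A hA 0 N le_rfl hN0) (by
      intro x hx
      rw [Set.mem_Icc] at hx
      have h1 : x ^ 2 + x + A ≤ (N : ℝ) ^ 3 := by
        have h2 : x ^ 2 ≤ (N : ℝ) ^ 2 := by nlinarith [hx.1, hx.2]
        nlinarith [hx.1, hx.2]
      have h3 : (3 : ℝ) ≤ x ^ 2 + x + A := by nlinarith [hx.1, hx.2]
      have h4 : Real.log (x ^ 2 + x + A) ≤ 3 * Real.log N := by
        calc Real.log (x ^ 2 + x + A) ≤ Real.log ((N : ℝ) ^ 3) := Real.log_le_log (by linarith) h1
          _ = 3 * Real.log N := by rw [Real.log_pow]; norm_num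
      exact one_div_le_one_div_of_le (Real.log_pos (by linarith)) h4)
  rw [intervalIntegral.integral_const, smul_eq_mul] at h
  unfold L
  have e : 2 * (N : ℝ) / (3 * Real.log N) = 2 * ((N - 0) * (1 / (3 * Real.log N))) := by ring
  rw [e]
  linarith

end Pool.Agent.Helper64.CF
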